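import Pool.Agent.MP_32a90a_pr.D.E.Ens
import Pool.Agent.MP_32a90a_pr.D.E.B3
import Pool.Agent.MP_32a90a_pr.D.E.Obs
import Pool.Agent.MP_32a90a_pr.D.E.OkG
import Pool.Agent.MP_32a90a_pr.D.E.LipN
import Pool.Agent.MP_32a90a_pr.D.E.Grif
import Pool.Agent.MP_32a90a_pr.D.E.Dev
import Pool.Agent.MP_32a90a_pr.D.E.GK
import Pool.Agent.MP_32a90a_pr.D.E.Cmp
import Pool.Agent.MP_32a90a_pr.D.E.GR
import Pool.Agent.MP_32a90a_pr.D.E.Pur
import Pool.Agent.MP_32a90a_pr.D.E.XT
import Pool.Agent.MP_32a90a_pr.D.E.NearX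
import Pool.Agent.MP_32a90a_pr.D.E.StepH
import Pool.Agent.MP_32a90a_pr.D.E.End
import Pool.Agent.MP_32a90a_pr.D.E.Tel
import Pool.Agent.MP_32a90a_pr.D.E.NO1
import Pool.Agent.MP_32a90a_pr.D.E.SoftU
import Pool.Agent.MP_32a90a_pr.D.E.SoftL
import Pool.Agent.MP_32a90a_pr.D.E.LamL
import Pool.Agent.MP_32a90a_pr.D.E.KtJ
import Pool.Agent.MP_32a90a_pr.D.E.KtL
import Pool.Agent.MP_32a90a_pr.D.E.MagL
import Pool.Agent.MP_32a90a_pr.D.E.FinB

set_option autoImplicit false

namespace Pool.Agent.MP_32a90a_pr.D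

namespace EAll

theorem gridF (grid : StGrid) (tilt : StTilt) (bd : StBd) : StGridF :=
  stGridF grid tilt bd stObs stOkG

theorem dev (conc : StConc) (tilt : StTilt) (bd : StBd) : StDev :=
  stDev (stGrif tilt conc) stObs stOkG (stLipN bd stOkG)

theorem gk (conc : StConc) (grid : StGrid) (tilt : StTilt) (bd : StBd) : StGK :=
  stGK (gridF grid tilt bd) (dev conc tilt bd) stDevN stOkG

end EAll

open EAll

theorem stEns (conc : StConc) (g9a : StG9a) (xe : StXE) (bd : StBd) (tilt : StTilt) (fix : StFix)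
    (pure : StPure) (grid : StGrid) (near : StNear) (ser : StSer) (par : StPar) : StEns :=
  stEns_of stJm (gk conc grid tilt bd)
    (stGR (gridF grid tilt bd) (dev conc tilt bd) stDevN (stCmp fix stOkG) stOkG)
    (stNO fix stOkG) (stPur pure stOkG)
    (stTel (stStepH stNearX near bd xe) (stEnd (stXT fix stOkG) g9a) par ser) stOkG stDevN

theorem stB3 (conc : StConc) (b1w : StB1w) (typ : StTyp) (pos : StPos) (bd : StBd) (tilt : StTilt)
    (fix : StFix) (minor : StMinor) (grid : StGrid) (near : StNear) (stab : StStab) (d1 : StD1)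
    (exc : StExc) (vt3 : StVT3) (vt4 : StVT4) (par : StPar) (symCav : StSymCav)
    (joinCut : StJoinCut) (insCav : StInsCav) (ex : StEX) (vx : StVX) (gwP : StGwP)
    (rigD : StRigD) : StB3 :=
  stB3_of stJm (gk conc grid tilt bd)
    (stLamL typ (stNO1 b1w fix par stOkG) (stSoftU par stOkG)
      (stSoftL vt3 vx insCav symCav rigD d1 gwP par pos))
    (stKtL (stKtJ joinCut near stab bd minor exc) ex rigD d1 joinCut par)
    (stMagL vt4 vx insCav symCav gwP par pos) (stFinB tilt fix stOkG)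

end Pool.Agent.MP_32a90a_pr.D
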